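import Pool.Agent.H99.Trap.Defs2

/-!
# TRAP, module F1: the heat kernel of the simple random walk
-/

set_option autoImplicit false

namespace Pool.Agent.H99.Trap.F1

open Finset

/-- Number of `±1` words of length `n` with sum `k`. -/
def B : ℕ → ℤ → ℕ
  | 0, k => if k = 0 then 1 else 0
  | n + 1, k => B n (k - 1) + B n (k + 1)

lemma B_zero (k : ℤ) : B 0 k = if k = 0 then 1 else 0 := rfl

lemma B_succ (n : ℕ) (k : ℤ) : B (n + 1) k = B n (k - 1) + B n (k + 1) := rfl

theorem B_le (n : ℕ) (k : ℤ) : B n k ≤ 2 ^ n := by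
  induction n generalizing k with
  | zero => rw [B_zero]; split_ifs <;> simp
  | succ n ih => rw [B_succ, pow_succ]; have := ih (k - 1); have := ih (k + 1); omega

theorem B_neg (n : ℕ) (k : ℤ) : B n (-k) = B n k := by
  induction n generalizing k with
  | zero => simp [B_zero]
  | succ n ih =>
    rw [B_succ, B_succ, show -k - 1 = -(k + 1) by ring, show -k + 1 = -(k - 1) by ring, ih, ih,
      add_comm]

theorem B_abs (n : ℕ) (k : ℤ) : B n |k| = B n k := by
  rcases abs_choice k with h | h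
  · rw [h]
  · rw [h, B_neg]

theorem B_step (n : ℕ) (k : ℤ) (hk : -1 ≤ k) : B n (k + 2) ≤ B n k := by
  induction n generalizing k with
  | zero => rw [B_zero, B_zero]; split_ifs <;> omega
  | succ n ih =>
    rw [B_succ, B_succ, show k + 2 - 1 = k + 1 by ring, show k + 2 + 1 = k + 1 + 2 by ring]
    have : B n (k + 1 + 2) ≤ B n (k - 1) := by
      rcases eq_or_lt_of_le hk with h | h
      · subst h
        rw [show (-1:ℤ) + 1 + 2 = 2 by norm_num, show (-1:ℤ) - 1 = -2 by norm_num, B_neg]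
      · calc B n (k + 1 + 2) ≤ B n (k + 1) := ih _ (by omega)
          _ = B n (k - 1 + 2) := by congr 1; ring
          _ ≤ B n (k - 1) := ih _ (by omega)
    omega

theorem B_mono {n : ℕ} {j k : ℤ} (h : |j| ≤ |k|) (hp : Even (k - j)) : B n k ≤ B n j := by
  rw [← B_abs n k, ← B_abs n j]
  have hp' : Even (|k| - |j|) := by
    rw [Int.even_sub] at hp ⊢
    rw [even_abs, even_abs]
    exact hp
  obtain ⟨m, hm⟩ := hp'
  have hm0 : 0 ≤ m := by omega
  have hk : |k| = |j| + 2 * m := by omega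
  rw [hk]
  lift m to ℕ using hm0
  clear hm hk h hp
  have hj := abs_nonneg j
  generalize |j| = i at hj
  induction m with
  | zero => simp
  | succ m ih =>
    refine le_trans ?_ ih
    rw [show i + 2 * ((m + 1 : ℕ) : ℤ) = (i + 2 * (m : ℤ)) + 2 by push_cast; ring]
    exact B_step _ _ (by omega)

theorem B_parity {n : ℕ} {k : ℤ} (h : ¬ Even ((n : ℤ) - k)) : B n k = 0 := by
  induction n generalizing k with
  | zero =>
    rw [B_zero, if_neg]
    rintro rfl; exact h (by simp)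
  | succ n ih =>
    rw [B_succ, ih, ih]
    · intro h1; apply h
      rw [Int.even_iff] at h1 ⊢; push_cast; omega
    · intro h1; apply h
      rw [Int.even_iff] at h1 ⊢; push_cast; omega

theorem B_far {n : ℕ} {k : ℤ} (h : (n : ℤ) < |k|) : B n k = 0 := by
  induction n generalizing k with
  | zero =>
    rw [B_zero, if_neg]
    rintro rfl; simp at h
  | succ n ih =>
    push_cast at h
    rw [B_succ, ih, ih]
    · rw [lt_abs] at h ⊢; omega
    · rw [lt_abs] at h ⊢; omega

theorem B_choose (n j : ℕ) : B n (2 * j - n) = n.choose j := by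
  induction n generalizing j with
  | zero => cases j <;> simp [B_zero] ; omega
  | succ n ih =>
    cases j with
    | zero =>
      rw [B_succ]
      have h1 := ih 0
      rw [B_far (n := n) (k := 2 * ((0:ℕ):ℤ) - ((n + 1 : ℕ) : ℤ) - 1) (by rw [lt_abs]; push_cast; omega)]
      have h2 : 2 * ((0:ℕ):ℤ) - ((n + 1 : ℕ) : ℤ) + 1 = 2 * ((0:ℕ):ℤ) - n := by push_cast; ring
      rw [h2, h1]; simp
    | succ j =>
      rw [B_succ, Nat.choose_succ_succ, ← ih j, ← ih (j + 1)]
      congr 2 <;> push_cast <;> ring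

/-- Binomial convolution. -/
def bc (a b : ℕ → ℕ) (n : ℕ) : ℕ := ∑ p ∈ antidiagonal n, n.choose p.1 * (a p.1 * b p.2)

lemma bc_succ (a b : ℕ → ℕ) (n : ℕ) :
    bc a b (n + 1) = bc a (fun i => b (i + 1)) n + bc (fun i => a (i + 1)) b n := by
  unfold bc
  have h := sum_antidiagonal_choose_succ_mul (R := ℕ) (fun i j => a i * b j) n
  simp only [Nat.cast_id] at h
  rw [h]
  congr 1
  refine Finset.sum_congr rfl fun p hp => ?_
  have hp' : p.1 + p.2 = n := by simpa using hp
  rw [Nat.choose_symm_of_eq_add hp'.symm]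

lemma bc_add_right (a b c : ℕ → ℕ) (n : ℕ) :
    bc a (fun i => b i + c i) n = bc a b n + bc a c n := by
  unfold bc
  rw [← Finset.sum_add_distrib]
  exact Finset.sum_congr rfl fun p _ => by ring

lemma bc_add_left (a b c : ℕ → ℕ) (n : ℕ) :
    bc (fun i => a i + b i) c n = bc a c n + bc b c n := by
  unfold bc
  rw [← Finset.sum_add_distrib]
  exact Finset.sum_congr rfl fun p _ => by ring

/-- number of words in three dimensions -/
def U (n : ℕ) (x y z : ℤ) : ℕ :=
  bc (bc (fun i => B i x) (fun i => B i y)) (fun i => B i z) n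

lemma U_succ (n : ℕ) (x y z : ℤ) : U (n + 1) x y z =
    (U n (x - 1) y z + U n (x + 1) y z) + (U n x (y - 1) z + U n x (y + 1) z)
      + (U n x y (z - 1) + U n x y (z + 1)) := by
  unfold U
  rw [bc_succ]
  have h1 : (fun i => bc (fun i => B i x) (fun i => B i y) (i + 1)) =
      fun i => ((bc (fun i => B i x) (fun i => B i (y - 1)) i +
        bc (fun i => B i x) (fun i => B i (y + 1)) i)) +
        (bc (fun i => B i (x - 1)) (fun i => B i y) i +
        bc (fun i => B i (x + 1)) (fun i => B i y) i) := by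
    funext i
    rw [bc_succ]
    simp only [B_succ]
    rw [bc_add_right, bc_add_left]
  rw [h1]
  simp only [B_succ]
  rw [bc_add_right, bc_add_left, bc_add_left, bc_add_left]
  ring

/-- number of words -/
def W (d n : ℕ) (z : Fin d → ℤ) : ℕ := Fintype.card {e : Fin n → Dir d // ∑ i, stp (e i) = z}

lemma W_eq (d n : ℕ) (z : Fin d → ℤ) :
    W d n z = ∑ e : Fin n → Dir d, if ∑ i, stp (e i) = z then 1 else 0 := by
  unfold W
  rw [Fintype.card_subtype, Finset.card_filter]

lemma W_zero (d : ℕ) (z : Fin d → ℤ) : W d 0 z = if z = 0 then 1 else 0 := by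
  rw [W_eq]
  simp [eq_comm]

lemma W_succ (d n : ℕ) (z : Fin d → ℤ) : W d (n + 1) z = ∑ e : Dir d, W d n (z - stp e) := by
  rw [W_eq, ← (Fin.consEquiv (fun _ : Fin (n + 1) => Dir d)).sum_comp, Fintype.sum_prod_type]
  refine Finset.sum_congr rfl fun a _ => ?_
  rw [W_eq]
  refine Finset.sum_congr rfl fun e _ => ?_
  rw [Fin.sum_univ_succ]
  simp only [Fin.consEquiv_apply, Fin.cons_zero, Fin.cons_succ]
  congr 1
  rw [eq_sub_iff_add_eq, add_comm]

lemma W_three (n : ℕ) (z : Fin 3 → ℤ) : W 3 n z = U n (z 0) (z 1) (z 2) := by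
  induction n generalizing z with
  | zero =>
    rw [W_zero]
    have : z = 0 ↔ z 0 = 0 ∧ z 1 = 0 ∧ z 2 = 0 := by
      constructor
      · rintro rfl; simp
      · rintro ⟨h0, h1, h2⟩; funext i; fin_cases i <;> assumption
    simp only [this]
    have hb : ∀ a b : ℕ → ℕ, bc a b 0 = a 0 * b 0 := by intro a b; simp [bc]
    unfold U
    rw [hb, hb]
    simp only [B_zero]
    by_cases h0 : z 0 = 0 <;> by_cases h1 : z 1 = 0 <;> by_cases h2 : z 2 = 0 <;> simp [h0, h1, h2]
  | succ n ih =>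
    rw [W_succ, U_succ]
    simp only [ih]
    rw [Fintype.sum_prod_type, Fin.sum_univ_three]
    simp only [Fintype.sum_bool]
    simp [stp, sub_eq_add_neg]

lemma W_le (d n : ℕ) (z : Fin d → ℤ) : W d n z ≤ (2 * d) ^ n := by
  unfold W
  refine (Fintype.card_subtype_le _).trans ?_
  simp [mul_comm]

lemma rwP_eq (d n : ℕ) (z : Fin d → ℤ) : rwP d n z = (W d n z : ℝ) / (2 * d) ^ n := rfl

lemma rwP_nonneg (d n : ℕ) (z : Fin d → ℤ) : 0 ≤ rwP d n z := by
  rw [rwP_eq]; positivity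

lemma rwP_le_one (d n : ℕ) (z : Fin d → ℤ) : rwP d n z ≤ 1 := by
  rw [rwP_eq]
  refine div_le_one_of_le₀ ?_ (by positivity)
  exact_mod_cast W_le d n z

lemma summable_pois (l : ℝ) : Summable (fun n : ℕ => |Real.exp (-l) * l ^ n / n.factorial|) := by
  have h : (fun n : ℕ => |Real.exp (-l) * l ^ n / n.factorial|) =
      fun n : ℕ => Real.exp (-l) * (|l| ^ n / n.factorial) := by
    funext n
    rw [abs_div, abs_mul, abs_pow, Nat.abs_cast, abs_of_pos (Real.exp_pos _), mul_div_assoc]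
  rw [h]
  exact (Real.summable_pow_div_factorial _).mul_left _

lemma hk_summable_abs (d : ℕ) (l : ℝ) (z : Fin d → ℤ) :
    Summable (fun n : ℕ => |Real.exp (-l) * l ^ n / n.factorial * rwP d n z|) := by
  refine Summable.of_nonneg_of_le (fun _ => abs_nonneg _) (fun n => ?_) (summable_pois l)
  rw [abs_mul]
  refine mul_le_of_le_one_right (abs_nonneg _) ?_
  rw [abs_of_nonneg (rwP_nonneg _ _ _)]
  exact rwP_le_one _ _ _

lemma hk_summable (d : ℕ) (l : ℝ) (z : Fin d → ℤ) :
    Summable (fun n : ℕ => Real.exp (-l) * l ^ n / n.factorial * rwP d n z) :=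
  (hk_summable_abs d l z).of_abs

lemma tsum_pois (l : ℝ) : ∑' n : ℕ, Real.exp (-l) * l ^ n / n.factorial = 1 := by
  have h : (fun n : ℕ => Real.exp (-l) * l ^ n / n.factorial) =
      fun n : ℕ => Real.exp (-l) * (l ^ n / n.factorial) := by
    funext n; rw [mul_div_assoc]
  have h2 : Real.exp l = ∑' n : ℕ, l ^ n / n.factorial := by
    rw [Real.exp_eq_exp_ℝ, NormedSpace.exp_eq_tsum_div]
  rw [h, tsum_mul_left, ← h2, ← Real.exp_add]
  simp

/-- One-dimensional heat kernel. -/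
noncomputable def q (l : ℝ) (k : ℤ) : ℝ :=
  ∑' n : ℕ, Real.exp (-l) * l ^ n / n.factorial * ((B n k : ℝ) / 2 ^ n)

lemma B_div_nonneg (n : ℕ) (k : ℤ) : 0 ≤ (B n k : ℝ) / 2 ^ n := by positivity

lemma B_div_le_one (n : ℕ) (k : ℤ) : (B n k : ℝ) / 2 ^ n ≤ 1 := by
  refine div_le_one_of_le₀ ?_ (by positivity)
  exact_mod_cast B_le n k

lemma q_summable_abs (l : ℝ) (k : ℤ) :
    Summable (fun n : ℕ => |Real.exp (-l) * l ^ n / n.factorial * ((B n k : ℝ) / 2 ^ n)|) := by
  refine Summable.of_nonneg_of_le (fun _ => abs_nonneg _) (fun n => ?_) (summable_pois l)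
  rw [abs_mul]
  refine mul_le_of_le_one_right (abs_nonneg _) ?_
  rw [abs_of_nonneg (B_div_nonneg _ _)]
  exact B_div_le_one _ _

theorem q_summable (l : ℝ) (k : ℤ) :
    Summable (fun n : ℕ => Real.exp (-l) * l ^ n / n.factorial * ((B n k : ℝ) / 2 ^ n)) :=
  (q_summable_abs l k).of_abs

theorem q_nonneg {l : ℝ} (hl : 0 ≤ l) (k : ℤ) : 0 ≤ q l k :=
  tsum_nonneg fun n => mul_nonneg (by positivity) (B_div_nonneg _ _)

theorem q_le_one {l : ℝ} (hl : 0 ≤ l) (k : ℤ) : q l k ≤ 1 := by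
  rw [← tsum_pois l]
  refine (q_summable l k).tsum_le_tsum (fun n => ?_) (summable_pois l).of_abs
  exact mul_le_of_le_one_right (by positivity) (B_div_le_one _ _)

theorem q_mono {l : ℝ} (hl : 0 ≤ l) {j k : ℤ} (h : |j| ≤ |k|) (hp : Even (k - j)) :
    q l k ≤ q l j := by
  refine (q_summable l k).tsum_le_tsum (fun n => ?_) (q_summable l j)
  refine mul_le_mul_of_nonneg_left ?_ (by positivity)
  refine div_le_div_of_nonneg_right ?_ (by positivity)
  exact_mod_cast B_mono h hp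

lemma egf (a b : ℕ → ℕ) (e₁ e₂ x : ℝ) (n : ℕ) :
    ∑ p ∈ antidiagonal n, (e₁ * x ^ p.1 / p.1.factorial * a p.1) *
      (e₂ * x ^ p.2 / p.2.factorial * b p.2) = (e₁ * e₂) * x ^ n / n.factorial * bc a b n := by
  unfold bc
  push_cast
  rw [Finset.mul_sum]
  refine Finset.sum_congr rfl fun p hp => ?_
  replace hp : p.1 + p.2 = n := by simpa using hp
  have h1 : ((n.choose p.1 : ℕ) : ℝ) * p.1.factorial * p.2.factorial = n.factorial := by
    rw [← hp]
    have := Nat.add_choose_mul_factorial_mul_factorial p.1 p.2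
    rw [← Nat.choose_symm_add] at this
    exact_mod_cast this
  have h2 : x ^ n = x ^ p.1 * x ^ p.2 := by rw [← pow_add, hp]
  have h3 : (p.1.factorial : ℝ) ≠ 0 := by positivity
  have h4 : (p.2.factorial : ℝ) ≠ 0 := by positivity
  have h5 : (n.factorial : ℝ) ≠ 0 := by positivity
  rw [h2]
  field_simp
  rw [← h1]
  ring

lemma q_eq (l : ℝ) (k : ℤ) : q l k =
    ∑' n : ℕ, Real.exp (-l) * (l / 2) ^ n / n.factorial * B n k := by
  unfold q
  refine tsum_congr fun n => ?_
  rw [div_pow]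
  ring

theorem hk_prod (l : ℝ) (z : Fin 3 → ℤ) :
    hk 3 l z = q (l / 3) (z 0) * q (l / 3) (z 1) * q (l / 3) (z 2) := by
  have hs : ∀ k : ℤ, Summable (fun n : ℕ =>
      ‖Real.exp (-(l / 3)) * (l / 3 / 2) ^ n / n.factorial * (B n k : ℝ)‖) := by
    intro k
    have := q_summable_abs (l / 3) k
    refine this.congr fun n => ?_
    have h0 : (l / 3 / 2) ^ n = (l / 3) ^ n / 2 ^ n := div_pow _ _ _
    rw [Real.norm_eq_abs, h0]
    congr 1
    ring
  rw [q_eq, q_eq, q_eq,
    tsum_mul_tsum_eq_tsum_sum_antidiagonal_of_summable_norm (hs _) (hs _)]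
  have h1 := summable_norm_sum_mul_antidiagonal_of_summable_norm (hs (z 0)) (hs (z 1))
  have h2 : ∀ n : ℕ, ∑ p ∈ antidiagonal n,
      (Real.exp (-(l / 3)) * (l / 3 / 2) ^ p.1 / p.1.factorial * (B p.1 (z 0) : ℝ)) *
      (Real.exp (-(l / 3)) * (l / 3 / 2) ^ p.2 / p.2.factorial * (B p.2 (z 1) : ℝ)) =
      (Real.exp (-(l / 3)) * Real.exp (-(l / 3))) * (l / 3 / 2) ^ n / n.factorial *
        bc (fun i => B i (z 0)) (fun i => B i (z 1)) n := fun n =>
    egf (fun i => B i (z 0)) (fun i => B i (z 1)) _ _ _ n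
  simp_rw [h2] at h1 ⊢
  rw [tsum_mul_tsum_eq_tsum_sum_antidiagonal_of_summable_norm h1 (hs _)]
  unfold hk
  refine tsum_congr fun n => ?_
  have h3 := egf (bc (fun i => B i (z 0)) (fun i => B i (z 1))) (fun i => B i (z 2))
    (Real.exp (-(l / 3)) * Real.exp (-(l / 3))) (Real.exp (-(l / 3))) (l / 3 / 2) n
  rw [h3, ← Real.exp_add, ← Real.exp_add, rwP_eq, W_three]
  have h4 : -(l / 3) + -(l / 3) + -(l / 3) = -l := by ring
  rw [h4]
  have h5 : (l / 3 / 2) ^ n = l ^ n / 6 ^ n := by rw [← div_pow]; congr 1; ring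
  rw [h5]
  unfold U
  push_cast
  norm_num
  ring

end Pool.Agent.H99.Trap.F1

namespace Pool.Agent.H99.Trap

open MeasureTheory ProbabilityTheory Filter
open scoped ENNReal NNReal Topology
open F1

theorem hk_nonneg {d : ℕ} {l : ℝ} (hl : 0 ≤ l) (z : Fin d → ℤ) : 0 ≤ hk d l z :=
  tsum_nonneg fun n => mul_nonneg (by positivity) (rwP_nonneg _ _ _)

theorem hk_le_one {d : ℕ} [NeZero d] {l : ℝ} (hl : 0 ≤ l) (z : Fin d → ℤ) : hk d l z ≤ 1 := by
  rw [← tsum_pois l]
  refine (hk_summable d l z).tsum_le_tsum (fun n => ?_) (summable_pois l).of_abs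
  exact mul_le_of_le_one_right (by positivity) (rwP_le_one _ _ _)

theorem hk_neg {d : ℕ} (l : ℝ) (z : Fin d → ℤ) : hk d l (-z) = hk d l z := by
  unfold hk
  refine tsum_congr fun n => ?_
  congr 1
  unfold rwP
  congr 2
  let f : (Fin n → Dir d) ≃ (Fin n → Dir d) :=
    Equiv.piCongrRight fun _ => Equiv.prodCongr (Equiv.refl _) Equiv.boolNot
  refine Fintype.card_congr (f.subtypeEquiv fun e => ?_)
  have h1 : ∀ e : Dir d, stp (Equiv.prodCongr (Equiv.refl _) Equiv.boolNot e) = -stp e := by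
    intro e
    obtain ⟨i, b⟩ := e
    unfold stp
    cases b <;> simp [Pi.single_neg]
  have h2 : ∑ i, stp (f e i) = -∑ i, stp (e i) := by
    rw [← Finset.sum_neg_distrib]
    exact Finset.sum_congr rfl fun i _ => h1 _
  rw [h2]
  constructor
  · intro h; rw [h, neg_neg]
  · intro h; rw [← h, neg_neg]

theorem measurable_hk (d : ℕ) : Measurable (fun p : ℝ × (Fin d → ℤ) => hk d p.1 p.2) := by
  refine measurable_of_tendsto_metrizable (f := fun (N : ℕ) (p : ℝ × (Fin d → ℤ)) =>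
    ∑ n ∈ Finset.range N, Real.exp (-p.1) * p.1 ^ n / n.factorial * rwP d n p.2) ?_ ?_
  · intro N
    refine Finset.measurable_fun_sum _ fun n _ => ?_
    refine Measurable.mul (by fun_prop) ?_
    exact (measurable_of_countable (rwP d n)).comp measurable_snd
  · rw [tendsto_pi_nhds]
    intro p
    exact (hk_summable d p.1 p.2).hasSum.tendsto_sum_nat

theorem hk_fold {l : ℝ} (hl : 0 ≤ l) (a : ℤ) (x y : Fin 3 → ℤ) :
    hk 3 l (x - y) ≤ hk 3 l (fold a x - fold a y) := by
  rw [hk_prod, hk_prod]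
  have hl3 : 0 ≤ l / 3 := by positivity
  have h0 : (fold a x - fold a y) 0 = |x 0 - a| - |y 0 - a| := rfl
  have h1 : (fold a x - fold a y) 1 = (x - y) 1 := rfl
  have h2 : (fold a x - fold a y) 2 = (x - y) 2 := rfl
  rw [h0, h1, h2]
  have h3 : q (l / 3) ((x - y) 0) ≤ q (l / 3) (|x 0 - a| - |y 0 - a|) := by
    have h4 : (x - y) 0 = x 0 - y 0 := rfl
    rw [h4]
    refine q_mono hl3 ?_ ?_
    · have := abs_abs_sub_abs_le (x 0 - a) (y 0 - a)
      rwa [show x 0 - a - (y 0 - a) = x 0 - y 0 by ring] at this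
    · rcases abs_cases (x 0 - a) with ⟨h, _⟩ | ⟨h, _⟩ <;>
      rcases abs_cases (y 0 - a) with ⟨h', _⟩ | ⟨h', _⟩ <;>
      rw [h, h', Int.even_iff] <;> omega
  exact mul_le_mul_of_nonneg_right (mul_le_mul_of_nonneg_right h3 (q_nonneg hl3 _))
    (q_nonneg hl3 _)

end Pool.Agent.H99.Trap
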